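import Pool.Agent.Helper4MT.Main

/-!
# Monochromatic triangle tilings at medium minimum degree

Every 2-edge-coloured graph on `n` vertices with `5n/6 ≤ δ(G) ≤ 7n/8` contains at least
`⌊(4 δ(G) - 3 n) / 2⌋` pairwise vertex-disjoint monochromatic triangles.
-/

set_option autoImplicit false

namespace Pool.Agent.Results.MP_5ade4c_co.MediumDegree

open Finset Pool.Agent.Helper4MT

theorem result {V : Type*} [Fintype V] (G : SimpleGraph V) [DecidableRel G.Adj]
    (c : G.edgeSet → Bool)
    (h1 : 5 * (Fintype.card V : ℝ) / 6 ≤ (G.minDegree : ℝ))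
    (h2 : (G.minDegree : ℝ) ≤ 7 * (Fintype.card V : ℝ) / 8) :
    ∃ 𝒯 : Finset (Finset V),
      (∀ T ∈ 𝒯, G.IsNClique 3 T ∧
        ∃ b : Bool, ∀ x ∈ T, ∀ y ∈ T, ∀ h : G.Adj x y, c ⟨s(x, y), h⟩ = b) ∧
      (𝒯 : Set (Finset V)).PairwiseDisjoint id ∧
      ⌊(4 * (G.minDegree : ℝ) - 3 * (Fintype.card V : ℝ)) / 2⌋ ≤ (𝒯.card : ℤ) := by
  classical
  have h1' : 5 * Fintype.card V ≤ 6 * G.minDegree := by
    have : (5 * (Fintype.card V : ℝ)) ≤ 6 * (G.minDegree : ℝ) := by linarith
    exact_mod_cast this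
  have h2' : 8 * G.minDegree ≤ 7 * Fintype.card V := by
    have : (8 * (G.minDegree : ℝ)) ≤ 7 * (Fintype.card V : ℝ) := by linarith
    exact_mod_cast this
  set c' : Sym2 V → Bool := fun e => if h : e ∈ G.edgeSet then c ⟨e, h⟩ else false with hc'
  -- the bound with natural numbers
  have main : ∃ 𝒯 : Finset (Finset V), (∀ T ∈ 𝒯, MonoTriangle G c' T) ∧
      (𝒯 : Set (Finset V)).PairwiseDisjoint id ∧
      (4 * G.minDegree - 3 * Fintype.card V) / 2 ≤ 𝒯.card := by
    rcases Nat.eq_zero_or_pos (Fintype.card V) with h0 | hpos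
    · exact ⟨∅, by simp, by simp, by
        have : IsEmpty V := Fintype.card_eq_zero_iff.1 h0
        simp⟩
    have hlt : G.minDegree < Fintype.card V := by
      obtain ⟨v⟩ := Fintype.card_pos_iff.1 hpos
      exact lt_of_le_of_lt (G.minDegree_le_degree v) (G.degree_lt_card_verts v)
    have hk : ∀ v ∈ (univ : Finset V), (nn G univ v).card < Fintype.card V - G.minDegree := by
      intro v _
      have e1 : (nn G univ v) ⊆ (univ.erase v) \ (G.neighborFinset v) := by
        intro x hx
        obtain ⟨_, h2, h3⟩ := mem_nn.1 hx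
        exact mem_sdiff.2 ⟨mem_erase.2 ⟨h2.symm, mem_univ _⟩,
          fun h => h3 ((G.mem_neighborFinset v x).1 h)⟩
      have e2 : G.neighborFinset v ⊆ univ.erase v := by
        intro x hx
        exact mem_erase.2 ⟨((G.mem_neighborFinset v x).1 hx).ne', mem_univ _⟩
      have e3 := card_sdiff_add_card_eq_card e2
      have e4 := card_le_card e1
      have e5 : (univ.erase v : Finset V).card + 1 = Fintype.card V := by
        rw [card_erase_add_one (mem_univ v), card_univ]
      have e6 := G.minDegree_le_degree v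
      rw [← G.card_neighborFinset_eq_degree] at e6
      omega
    obtain ⟨𝒯, g1, g2, g3⟩ := til_main (G := G) (c := c') (Fintype.card V)
      (Fintype.card V - G.minDegree) univ card_univ (by omega) (by omega) hk
    exact ⟨𝒯, fun T hT => (g1 T hT).1, g2, by omega⟩
  obtain ⟨𝒯, g1, g2, g3⟩ := main
  refine ⟨𝒯, fun T hT => ⟨(g1 T hT).1, ?_⟩, g2, ?_⟩
  · obtain ⟨b, hb⟩ := (g1 T hT).2
    refine ⟨b, fun x hx y hy h => ?_⟩
    have e1 := hb x hx y hy h.ne
    have e2 : s(x, y) ∈ G.edgeSet := G.mem_edgeSet.2 h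
    simp only [hc', dif_pos e2] at e1
    exact e1
  · have e1 : (⌊(4 * (G.minDegree : ℝ) - 3 * (Fintype.card V : ℝ)) / 2⌋ : ℤ)
        ≤ ((4 * G.minDegree - 3 * Fintype.card V) / 2 : ℕ) := by
      have e2 : 3 * Fintype.card V ≤ 4 * G.minDegree := by omega
      have e3 : (4 * (G.minDegree : ℝ) - 3 * (Fintype.card V : ℝ))
          = ((4 * G.minDegree - 3 * Fintype.card V : ℕ) : ℝ) := by
        rw [Nat.cast_sub e2]
        push_cast
        ring
      rw [e3, Int.floor_le_iff]
      set m := 4 * G.minDegree - 3 * Fintype.card V with hm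
      have e4 : m < 2 * (m / 2) + 2 := by omega
      have e5 : (m : ℝ) < 2 * ((m / 2 : ℕ) : ℝ) + 2 := by exact_mod_cast e4
      rw [Int.cast_natCast]
      linarith
    exact e1.trans (by exact_mod_cast g3)

end Pool.Agent.Results.MP_5ade4c_co.MediumDegree
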